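import Mathlib

set_option autoImplicit false

namespace Pool.Agent.Results.MP_150040_al.Counterexample

/-- Right primitive (no identity assumed): a faithful simple right module `M`, with the action
`m · r = act m r`. -/
def RPrim (R : Type) [NonUnitalRing R] : Prop :=
  ∃ (M : Type) (_ : AddCommGroup M) (act : M →+ R →+ M),
    (∀ m r s, act m (r * s) = act (act m r) s) ∧ (∃ m r, act m r ≠ 0) ∧
    (∀ N : AddSubgroup M, (∀ m ∈ N, ∀ r, act m r ∈ N) → N = ⊥ ∨ N = ⊤) ∧
    ∀ r, (∀ m, act m r = 0) → r = 0

/-- Subdirectly indecomposable: some nonzero element lies in every nonzero two-sided ideal. -/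
def SubInd (S : Type) [NonUnitalRing S] : Prop :=
  ∃ s : S, s ≠ 0 ∧ ∀ I : TwoSidedIdeal S, I ≠ ⊥ → s ∈ I

/-- `R` is a subdirect product of right primitive, subdirectly indecomposable rings. -/
def IsSubdirect (R : Type) [NonUnitalRing R] : Prop :=
  ∃ (ι : Type) (S : ι → Type) (_ : ∀ i, NonUnitalRing (S i)) (f : ∀ i, R →ₙ+* S i),
    (∀ i, Function.Surjective (f i)) ∧ (∀ r, (∀ i, f i r = 0) → r = 0) ∧
    ∀ i, RPrim (S i) ∧ SubInd (S i)

open SkewMonoidAlgebra Multiplicative

abbrev K : Type := AlgebraicClosure (ZMod 2)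
abbrev G : Type := Multiplicative ℕ

noncomputable def σ : RingAut K := frobeniusEquiv K 2

noncomputable instance inst : MulSemiringAction G K :=
  MulSemiringAction.compHom K (powersHom (RingAut K) σ)

theorem smul_def (n : G) (c : K) : n • c = (σ ^ n.toAdd) c := rfl

theorem σ_pow (n : ℕ) (c : K) : (σ ^ n) c = c ^ 2 ^ n := by
  induction n with
  | zero => simp
  | succ n ih =>
    rw [pow_succ', RingAut.mul_apply, ih, pow_succ, pow_mul]; rfl

theorem faith {i j : G} (h : ∀ c : K, i • c = j • c) : i = j := by
  have : (Polynomial.X : Polynomial K) ^ 2 ^ i.toAdd = Polynomial.X ^ 2 ^ j.toAdd :=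
    Polynomial.funext fun c => by simpa [smul_def, σ_pow] using h c
  have h2 := congrArg Polynomial.natDegree this
  simp only [Polynomial.natDegree_X_pow] at h2
  exact Multiplicative.toAdd.injective (Nat.pow_right_injective le_rfl h2)

abbrev A : Type := SkewMonoidAlgebra K G

noncomputable def x : A := single (ofAdd 1) 1

theorem x_pow (n : ℕ) : x ^ n = single (ofAdd n) 1 := by
  induction n with
  | zero => rfl
  | succ n ih => rw [pow_succ, ih, x, single_mul_single]; simp [ofAdd_add]

theorem normal (r : A) : ∃ r', x * r = r' * x := by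
  induction r using SkewMonoidAlgebra.induction_on with
  | zero => exact ⟨0, by simp⟩
  | single g a =>
    exact ⟨single g ((ofAdd 1 : G) • a), by
      rw [x, single_mul_single, single_mul_single, mul_comm]; simp⟩
  | add a b ha hb =>
    obtain ⟨a', ha⟩ := ha
    obtain ⟨b', hb⟩ := hb
    exact ⟨a' + b', by rw [mul_add, add_mul, ha, hb]⟩

theorem pow_mem (I : AddSubgroup A) (hl : ∀ a, ∀ b ∈ I, a * b ∈ I) (hr : ∀ a ∈ I, ∀ b, a * b ∈ I)
    (k : ℕ) : ∀ f ∈ I, f ≠ 0 → f.support.card ≤ k → ∃ n, x ^ n ∈ I := by
  classical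
  induction k with
  | zero =>
    intro f _ h0 h
    exact absurd (support_eq_empty.1 (Finset.card_eq_zero.1 (by omega))) h0
  | succ k ih =>
    intro f hf h0 h
    obtain ⟨i, hi⟩ := Finset.nonempty_iff_ne_empty.2 fun h => h0 (support_eq_empty.1 h)
    by_cases hs : ∀ j ∈ f.support, j = i
    · refine ⟨i.toAdd, ?_⟩
      have : x ^ i.toAdd = single 1 (f.coeff i)⁻¹ * f := by
        refine SkewMonoidAlgebra.ext fun j => ?_
        rw [coeff_single_one_mul, x_pow, coeff_single_apply]
        split_ifs with hj
        · have : i = j := hj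
          rw [← this, inv_mul_cancel₀ (mem_support_iff.1 hi)]
        · rw [notMem_support_iff.1 fun h => hj (hs j h).symm, mul_zero]
      rw [this]; exact hl _ _ hf
    · push Not at hs
      obtain ⟨j, hj, hne⟩ := hs
      obtain ⟨c, hc⟩ : ∃ c : K, j • c ≠ i • c := by
        by_contra hc; push Not at hc; exact hne (faith hc)
      have key : ∀ l, (f * single 1 c - single 1 (i • c) * f).coeff l =
          f.coeff l * (l • c - i • c) := by
        intro l
        rw [coeff_sub, Finsupp.sub_apply, coeff_mul_single_one, coeff_single_one_mul]; ring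
      refine ih (f * single 1 c - single 1 (i • c) * f) (I.sub_mem (hr _ hf _) (hl _ _ hf)) ?_ ?_
      · intro h
        have := key j
        rw [h] at this
        exact mul_ne_zero (mem_support_iff.1 hj) (sub_ne_zero.2 hc) (by simpa using this.symm)
      · have : (f * single 1 c - single 1 (i • c) * f).support ⊆ f.support.erase i := by
          intro l hl
          rw [mem_support_iff, key] at hl
          refine Finset.mem_erase.2 ⟨?_, mem_support_iff.2 (left_ne_zero_of_mul hl)⟩
          rintro rfl; simp at hl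
        have h2 := Finset.card_le_card this
        rw [Finset.card_erase_of_mem hi] at h2
        omega

noncomputable def act : K →+ A →+ K :=
  AddMonoidHom.flip <| ((Finsupp.liftAddHom fun n : G => AddMonoidHom.flip
    { toFun := fun m => ((σ ^ n.toAdd).symm.toAddMonoidHom).comp (AddMonoidHom.mulLeft m)
      map_zero' := by ext; simp
      map_add' := fun a b => by ext; simp [add_mul] }).comp coeffAddEquiv.toAddMonoidHom)

theorem act_single (m : K) (n : G) (c : K) : act m (single n c) = (σ ^ n.toAdd).symm (m * c) := by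
  simp [act]

theorem act_mul (m : K) (r s : A) : act m (r * s) = act (act m r) s := by
  induction r using SkewMonoidAlgebra.induction_on with
  | zero => simp
  | add a b ha hb => simp [add_mul, ha, hb]
  | single g a =>
    induction s using SkewMonoidAlgebra.induction_on with
    | zero => simp
    | add a b ha hb => simp [mul_add, ha, hb]
    | single h b =>
      rw [single_mul_single, act_single, act_single, act_single, RingEquiv.symm_apply_eq,
        toAdd_mul, pow_add, RingAut.mul_apply, RingEquiv.apply_symm_apply, map_mul,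
        RingEquiv.apply_symm_apply, smul_def, mul_assoc]

theorem prim : RPrim A := by
  refine ⟨K, inferInstance, act, act_mul, ⟨1, single 1 1, by rw [act_single]; simp⟩, ?_, ?_⟩
  · intro N hN
    by_cases h : N = ⊥
    · exact Or.inl h
    · obtain ⟨⟨m, hm⟩, h0⟩ := (AddSubgroup.ne_bot_iff_exists_ne_zero).1 h
      have h0' : m ≠ 0 := fun h => h0 (Subtype.ext h)
      refine Or.inr (eq_top_iff.2 fun c _ => ?_)
      have := hN m hm (single 1 (m⁻¹ * c))
      rwa [act_single, mul_inv_cancel_left₀ h0'] at this
  · intro r hr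
    by_contra h0
    let I : AddSubgroup A :=
      { carrier := {r | ∀ m, act m r = 0}
        zero_mem' := fun m => map_zero _
        add_mem' := fun ha hb m => by rw [map_add, ha m, hb m, add_zero]
        neg_mem' := fun ha m => by rw [map_neg, ha m, neg_zero] }
    obtain ⟨n, hn⟩ := pow_mem I (fun a b hb m => by rw [act_mul, hb])
      (fun a ha b m => by rw [act_mul, ha]; simp) _ r hr h0 le_rfl
    have := hn 1
    rw [x_pow, act_single] at this
    simp at this

theorem result : ∃ (R : Type) (_ : Ring R), RPrim R ∧ ¬ IsSubdirect R := by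
  classical
  refine ⟨A, inferInstance, prim, ?_⟩
  rintro ⟨ι, S, _, f, hs, h0, hP⟩
  have hx : x ≠ 0 := fun h => one_ne_zero (single_eq_zero.1 h)
  refine hx (h0 x fun i => ?_)
  obtain ⟨⟨M, _, a, ha, ⟨m0, s0, hm0⟩, hsim, hfa⟩, s, hs0, hI⟩ := hP i
  by_cases hinj : ∀ r, f i r = 0 → r = 0
  · exfalso
    obtain ⟨r, rfl⟩ := hs i s
    let N := r.support.sup toAdd + 1
    have hm : ∀ g h : A, ∀ k ∈ (g * h).support, ∃ u ∈ g.support, ∃ v ∈ h.support,
        toAdd k = toAdd u + toAdd v := by
      intro g h k hk
      obtain ⟨u, hu, v, hv, rfl⟩ := Finset.mem_mul.1 (support_mul g h hk)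
      exact ⟨u, hu, v, hv, rfl⟩
    let I : TwoSidedIdeal (S i) := TwoSidedIdeal.mk'
      {t | ∃ g : A, (∀ k ∈ g.support, N ≤ toAdd k) ∧ f i g = t} ⟨0, by simp, map_zero _⟩
      (by
        rintro _ _ ⟨g, hg, rfl⟩ ⟨h, hh, rfl⟩
        refine ⟨g + h, fun k hk => ?_, map_add _ _ _⟩
        rcases Finset.mem_union.1 (support_add hk) with hk | hk
        exacts [hg k hk, hh k hk])
      (by
        rintro _ ⟨g, hg, rfl⟩
        exact ⟨-g, by rwa [support_neg], map_neg _ _⟩)
      (by
        rintro t _ ⟨g, hg, rfl⟩
        obtain ⟨h, rfl⟩ := hs i t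
        refine ⟨h * g, fun k hk => ?_, map_mul _ _ _⟩
        obtain ⟨u, -, v, hv, e⟩ := hm _ _ k hk
        have := hg v hv; omega)
      (by
        rintro _ t ⟨g, hg, rfl⟩
        obtain ⟨h, rfl⟩ := hs i t
        refine ⟨g * h, fun k hk => ?_, map_mul _ _ _⟩
        obtain ⟨u, hu, v, -, e⟩ := hm _ _ k hk
        have := hg u hu; omega)
    have hne : I ≠ ⊥ := by
      intro h
      have : f i (single (ofAdd N) 1) ∈ I := by
        rw [TwoSidedIdeal.mem_mk']
        refine ⟨_, fun k hk => ?_, rfl⟩
        rw [Finset.mem_singleton.1 (support_single_subset hk)]; rfl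
      rw [h, TwoSidedIdeal.mem_bot] at this
      exact one_ne_zero (single_eq_zero.1 (hinj _ this))
    have := hI I hne
    rw [TwoSidedIdeal.mem_mk'] at this
    obtain ⟨g, hg, e⟩ := this
    have : g = r := sub_eq_zero.1 (hinj _ (by rw [map_sub, e, sub_self]))
    subst this
    obtain ⟨k, hk⟩ := Finset.nonempty_iff_ne_empty.2 fun h : g.support = ∅ =>
      hs0 (by rw [support_eq_empty.1 h, map_zero])
    have h1 := hg k hk
    have h2 := Finset.le_sup (f := toAdd) hk
    omega
  · push Not at hinj
    obtain ⟨r, hr, hr0⟩ := hinj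
    obtain ⟨n, hn⟩ := pow_mem (f i : A →+ S i).ker
      (fun a b hb => by
        have : f i b = 0 := hb
        show f i (a * b) = 0
        rw [map_mul, this, mul_zero])
      (fun a ha b => by
        have : f i a = 0 := ha
        show f i (a * b) = 0
        rw [map_mul, this, zero_mul]) _ r hr hr0 le_rfl
    have hn' : f i (x ^ n) = 0 := hn
    rcases hsim (a.flip (f i x)).range (by
      rintro _ ⟨m, rfl⟩ t
      obtain ⟨h, rfl⟩ := hs i t
      obtain ⟨h', e⟩ := normal h
      exact ⟨a m (f i h'), by
        simp only [AddMonoidHom.flip_apply]; rw [← ha, ← ha, ← map_mul, ← map_mul, e]⟩) with h | h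
    · refine hfa _ fun m => ?_
      have : a.flip (f i x) m ∈ (a.flip (f i x)).range := ⟨m, rfl⟩
      rwa [h, AddSubgroup.mem_bot] at this
    · exfalso
      have key : ∀ k m, ∃ m', a m' (f i (x ^ (k + 1))) = m := by
        intro k
        induction k with
        | zero =>
          intro m
          obtain ⟨m', e⟩ : m ∈ (a.flip (f i x)).range := h ▸ AddSubgroup.mem_top m
          exact ⟨m', by simpa using e⟩
        | succ k ih =>
          intro m
          obtain ⟨m', e⟩ : m ∈ (a.flip (f i x)).range := h ▸ AddSubgroup.mem_top m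
          obtain ⟨m'', e'⟩ := ih m'
          exact ⟨m'', by rw [pow_succ, map_mul, ha, e']; exact e⟩
      obtain ⟨m', e⟩ := key n m0
      rw [pow_succ, map_mul, hn', zero_mul, map_zero] at e
      rw [← e] at hm0
      simp at hm0

end Pool.Agent.Results.MP_150040_al.Counterexample
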